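import Mathlib
import Pool.Agent.Lib.PolyTile.Assemble

/-!
# Self-affine attractors that are polyhedra are parallelepipeds

In every dimension `d`, every self-affine attractor in `ℝ^d` (with an arbitrary real expanding
matrix and an arbitrary finite set of real shifts) which is a polyhedron, convex or not, is a
parallelepiped.
-/

set_option autoImplicit false

open Set MeasureTheory
open scoped Pointwise

namespace Pool.Agent.Results.MP_4cf399_an.PolyhedralAttractors

variable {d : ℕ}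

/-- A real `d × d` matrix is expanding if all its (complex) eigenvalues have absolute value
greater than `1`. -/
def Expanding (M : Matrix (Fin d) (Fin d) ℝ) : Prop :=
  ∀ z ∈ spectrum ℂ (M.map (algebraMap ℝ ℂ)), 1 < ‖z‖

/-- The piece `M⁻¹ (G + s)`. -/
def piece (M : Matrix (Fin d) (Fin d) ℝ) (G : Set (Fin d → ℝ)) (s : Fin d → ℝ) :
    Set (Fin d → ℝ) :=
  (fun x => M⁻¹.mulVec (x + s)) '' G

/-- A nonempty compact set `G` is an attractor if for some expanding matrix `M` and finite set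
`S` it is the union of the pieces `M⁻¹ (G + s)`, `s ∈ S`, and different pieces intersect in a set
of Lebesgue measure zero. -/
def IsAttractor (G : Set (Fin d → ℝ)) : Prop :=
  G.Nonempty ∧ IsCompact G ∧ ∃ (M : Matrix (Fin d) (Fin d) ℝ) (S : Finset (Fin d → ℝ)),
    Expanding M ∧ G = ⋃ s ∈ S, piece M G s ∧
    ∀ s ∈ S, ∀ s' ∈ S, s ≠ s' → volume (piece M G s ∩ piece M G s') = 0

/-- A convex polytope of full dimension: the convex hull of finitely many points, with nonempty
interior. -/
def IsFullPolytope (Q : Set (Fin d → ℝ)) : Prop :=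
  (∃ V : Finset (Fin d → ℝ), Q = convexHull ℝ (V : Set (Fin d → ℝ))) ∧ (interior Q).Nonempty

/-- A polyhedron: a compact set which is the closure of its interior, has connected interior and
is a finite union of full-dimensional convex polytopes. -/
def IsPolyhedron (G : Set (Fin d → ℝ)) : Prop :=
  IsCompact G ∧ G = closure (interior G) ∧ IsConnected (interior G) ∧
    ∃ 𝒬 : Finset (Set (Fin d → ℝ)), (∀ Q ∈ 𝒬, IsFullPolytope Q) ∧ G = ⋃ Q ∈ 𝒬, Q

/-- A parallelepiped: the image of the unit cube under an invertible affine map. -/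
def IsParallelepiped (G : Set (Fin d → ℝ)) : Prop :=
  ∃ f : (Fin d → ℝ) ≃ᵃ[ℝ] (Fin d → ℝ), G = f '' Icc 0 1

/-- In every dimension, every attractor which is a polyhedron is a parallelepiped. -/
theorem result (d : ℕ) (G : Set (Fin d → ℝ)) (hG : IsAttractor G) (hP : IsPolyhedron G) :
    IsParallelepiped G := by
  classical
  obtain ⟨hne, hcomp, M, S, hexp, hunion, hnull⟩ := hG
  obtain ⟨-, hcl, hconn, 𝒬, hQ, hG2⟩ := hP
  rcases Nat.eq_zero_or_pos d with rfl | hd
  · refine ⟨AffineEquiv.refl ℝ _, ?_⟩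
    obtain ⟨x, hx⟩ := hne
    ext y
    constructor
    · intro _
      exact ⟨y, ⟨fun i => Fin.elim0 i, fun i => Fin.elim0 i⟩, rfl⟩
    · intro _
      rw [Subsingleton.elim y x]
      exact hx
  have _ : Nonempty (Fin d) := ⟨⟨0, hd⟩⟩
  have _ : Nontrivial (Fin d → ℝ) := Function.nontrivial
  have hdet : M.det ≠ 0 := PolyTile.det_ne_zero M hexp
  have hinv1 : M⁻¹ * M = 1 := Matrix.nonsing_inv_mul M (isUnit_iff_ne_zero.2 hdet)
  have hinv2 : M * M⁻¹ = 1 := Matrix.mul_nonsing_inv M (isUnit_iff_ne_zero.2 hdet)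
  let M₀ : (Fin d → ℝ) ≃ₗ[ℝ] (Fin d → ℝ) :=
    { M.toLin' with
      invFun := fun x => M⁻¹.mulVec x
      left_inv := fun x => by
        change M⁻¹.mulVec (M.mulVec x) = x
        rw [Matrix.mulVec_mulVec, hinv1, Matrix.one_mulVec]
      right_inv := fun x => by
        change M.mulVec (M⁻¹.mulVec x) = x
        rw [Matrix.mulVec_mulVec, hinv2, Matrix.one_mulVec] }
  have hM₀ : ∀ x, M₀ x = M.mulVec x := fun x => rfl
  have hM₀s : ∀ x, M₀.symm x = M⁻¹.mulVec x := fun x => rfl
  have hM₀l : (M₀ : (Fin d → ℝ) →ₗ[ℝ] (Fin d → ℝ)) = M.toLin' := rfl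
  have hdet₀ : LinearMap.det (M₀ : (Fin d → ℝ) →ₗ[ℝ] (Fin d → ℝ)) = M.det := by
    rw [hM₀l, LinearMap.det_toLin']
  have hpow : ∀ (N : ℕ) x, (M₀ ^ N) x = (M ^ N).mulVec x := by
    intro N
    induction N with
    | zero => intro x; rw [pow_zero, pow_zero, Matrix.one_mulVec]; rfl
    | succ N ih =>
      intro x
      have h1 : (M₀ ^ (N + 1)) x = (M₀ ^ N) (M₀ x) := by rw [pow_succ]; rfl
      rw [h1, ih, hM₀, Matrix.mulVec_mulVec, ← pow_succ]
  -- the set equation
  have heq : M₀ '' G = G + (S : Set (Fin d → ℝ)) := by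
    ext x
    constructor
    · rintro ⟨y, hy, rfl⟩
      rw [hunion] at hy
      obtain ⟨s, hs, z, hz, rfl⟩ := mem_iUnion₂.1 hy
      refine ⟨z, hz, s, hs, ?_⟩
      simp only
      rw [← hM₀s, M₀.apply_symm_apply]
    · rintro ⟨z, hz, s, hs, rfl⟩
      refine ⟨M₀.symm (z + s), ?_, M₀.apply_symm_apply _⟩
      rw [hunion]
      exact mem_iUnion₂.2 ⟨s, hs, z, hz, rfl⟩
  have hint : (interior G).Nonempty := hconn.nonempty
  have hpos : 0 < volume G :=
    (isOpen_interior.measure_pos volume hint).trans_le (measure_mono interior_subset)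
  have hfin : volume G ≠ ⊤ := hcomp.measure_lt_top.ne
  -- the number of pieces
  have hcard : (S.card : ℝ) = |LinearMap.det (M₀ : (Fin d → ℝ) →ₗ[ℝ] (Fin d → ℝ))| := by
    have hpiece : ∀ s, piece M G s = M₀.symm '' ((fun x => x + s) '' G) := by
      intro s
      rw [image_image]
      rfl
    have hpc : ∀ s, IsCompact (piece M G s) := by
      intro s
      rw [hpiece]
      exact (hcomp.image (by fun_prop)).image
        M₀.symm.toLinearMap.continuous_of_finiteDimensional
    have hvol : ∀ s, volume (piece M G s) =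
        ENNReal.ofReal |LinearMap.det (M₀.symm : (Fin d → ℝ) →ₗ[ℝ] (Fin d → ℝ))| * volume G := by
      intro s
      rw [hpiece, PolyTile.Tile.measure_image, PolyTile.measure_translate]
    have hsum : volume G = ∑ s ∈ S, volume (piece M G s) := by
      conv_lhs => rw [hunion]
      refine measure_biUnion_finset₀ ?_ fun s _ => (hpc s).measurableSet.nullMeasurableSet
      intro s hs s' hs' hss
      exact hnull s hs s' hs' hss
    simp only [hvol] at hsum
    rw [Finset.sum_const, nsmul_eq_mul, ← mul_assoc] at hsum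
    have h1 : (1 : ENNReal) = S.card *
        ENNReal.ofReal |LinearMap.det (M₀.symm : (Fin d → ℝ) →ₗ[ℝ] (Fin d → ℝ))| := by
      have h2 : 1 * volume G = (S.card *
        ENNReal.ofReal |LinearMap.det (M₀.symm : (Fin d → ℝ) →ₗ[ℝ] (Fin d → ℝ))|) * volume G := by
        rw [one_mul]; exact hsum
      exact (ENNReal.mul_left_inj hpos.ne' hfin).1 h2
    rw [← ENNReal.ofReal_natCast, ← ENNReal.ofReal_mul (Nat.cast_nonneg _),
      ← ENNReal.ofReal_one, ENNReal.ofReal_eq_ofReal_iff zero_le_one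
        (mul_nonneg (Nat.cast_nonneg _) (abs_nonneg _))] at h1
    have h2 : LinearMap.det (M₀ : (Fin d → ℝ) →ₗ[ℝ] (Fin d → ℝ)) *
        LinearMap.det (M₀.symm : (Fin d → ℝ) →ₗ[ℝ] (Fin d → ℝ)) = 1 := by
      rw [← map_mul]
      have : (M₀ : (Fin d → ℝ) →ₗ[ℝ] (Fin d → ℝ)) * (M₀.symm : (Fin d → ℝ) →ₗ[ℝ] (Fin d → ℝ)) =
          1 := by
        ext1 x
        exact LinearMap.ext fun y => M₀.apply_symm_apply _
      rw [this, map_one]
    have h3 : |LinearMap.det (M₀ : (Fin d → ℝ) →ₗ[ℝ] (Fin d → ℝ))| *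
        |LinearMap.det (M₀.symm : (Fin d → ℝ) →ₗ[ℝ] (Fin d → ℝ))| = 1 := by
      rw [← abs_mul, h2, abs_one]
    have h4 : |LinearMap.det (M₀.symm : (Fin d → ℝ) →ₗ[ℝ] (Fin d → ℝ))| ≠ 0 := by
      intro h
      rw [h, mul_zero] at h3
      exact zero_ne_one h3
    apply mul_right_cancel₀ h4
    rw [← h1, h3]
  have hT : PolyTile.Tile M₀ S G := ⟨hcomp, hint, heq, hcard⟩
  refine PolyTile.assemble M₀ S G hT hcl hconn 𝒬 (fun Q hQm => (hQ Q hQm).1) hG2 ?_
  intro N hN u hu
  rw [hpow] at hu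
  exact PolyTile.no_fixed M hexp N hN u hu

end Pool.Agent.Results.MP_4cf399_an.PolyhedralAttractors
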